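import Pool.Agent.Lib.MP_4f0d88_nt.ED.Final

/-! A short integer polynomial with a zero of order `N` at `1` has exponentially large degree. -/

set_option autoImplicit false

namespace Pool.Agent.Results.MP_4f0d88_nt.ExpDiameter

open Polynomial

theorem result (N h : ℕ) (P : ℤ[X]) (hN : 2 ≤ N) (h0 : P ≠ 0) (hd : (X - 1) ^ N ∣ P)
    (hl : ∑ n ∈ P.support, |P.coeff n| ≤ 2 * (N : ℤ) + 2 * h) :
    (N : ℝ) * Real.log (2 + h / Real.log N) ≤
      50000 * (h + Real.log N) * Real.log P.natDegree :=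
  Lib.MP_4f0d88_nt.ED.main hN h0 hd hl

end Pool.Agent.Results.MP_4f0d88_nt.ExpDiameter
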