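import Pool.Agent.Lib.MP_4f0d88_nt.PlS
import Pool.Agent.Lib.MP_4f0d88_nt.PlB

set_option autoImplicit false

open Polynomial

namespace Pool.Agent.Results.MP_4f0d88_nt.Paucity

/-- For every `N ≥ 1` there is `c` such that for all `D ≥ 1` there are at most
`c * D ^ (270 * log (2 * N))` nonzero integer polynomials of degree at most `D` that are divisible
by `(X - 1) ^ N` and whose coefficients have absolute values summing to at most `2 * N`. -/
theorem result (N : ℕ) (hN : 1 ≤ N) : ∃ c : ℝ, ∀ D : ℕ, 1 ≤ D → ∀ F : Finset (Polynomial ℤ),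
    (∀ P ∈ F, P ≠ 0 ∧ P.natDegree ≤ D ∧ ∑ i ∈ P.support, |P.coeff i| ≤ 2 * (N : ℤ) ∧
      (X - 1) ^ N ∣ P) → (F.card : ℝ) ≤ c * (D : ℝ) ^ (270 * Real.log (2 * N)) :=
  Pool.Agent.Lib.MP_4f0d88_nt.paucity_of_count Pool.Agent.Lib.MP_4f0d88_nt.count N hN

end Pool.Agent.Results.MP_4f0d88_nt.Paucity
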