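import Pool.Agent.Lib.MP_4f0d88_nt.FarL

set_option autoImplicit false

open Polynomial

namespace Pool.Agent.Results.MP_4f0d88_nt.PrimeDivisors

/-- Let `p` be a prime with `N + 2 ≤ p ≤ (21 N + 12) / 10`, `p ≠ 2 N - 1`, `p ≠ 2 N + 1`. Every
integer polynomial divisible by `(X - 1) ^ N` whose coefficients have absolute values summing to at
most `2 N` (in particular every polynomial with coefficients in `{-1, 0, 1}`, `2 N` terms and a zero
of order at least `N` at `1`) is divisible by `X ^ p - 1`. -/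
theorem result (N p : ℕ) (hp : p.Prime) (h1 : N + 2 ≤ p) (h2 : 10 * p ≤ 21 * N + 12)
    (h3 : p + 1 ≠ 2 * N) (h4 : p ≠ 2 * N + 1)
    (P : Polynomial ℤ) (hl : ∑ i ∈ P.support, |P.coeff i| ≤ 2 * (N : ℤ))
    (hm : (X - 1) ^ N ∣ P) : X ^ p - 1 ∣ P :=
  have : Fact p.Prime := ⟨hp⟩
  Pool.Agent.Lib.MP_4f0d88_nt.Far.dvd_of_l1_far p N h1 h2 h3 h4 P hl hm

/-- The range `N + 2 ≤ p ≤ 2 N - 2`. -/
theorem earlier (N p : ℕ) (hp : p.Prime) (h1 : N + 2 ≤ p) (h2 : p + 2 ≤ 2 * N)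
    (P : Polynomial ℤ) (hl : ∑ i ∈ P.support, |P.coeff i| ≤ 2 * (N : ℤ))
    (hm : (X - 1) ^ N ∣ P) : X ^ p - 1 ∣ P :=
  result N p hp h1 (by omega) (by omega) (by omega) P hl hm

end Pool.Agent.Results.MP_4f0d88_nt.PrimeDivisors
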