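import Pool.Agent.Lib.MP_4f0d88_nt.PP.Final

/-! A product of `N` binomials `1 - x ^ a` has length at least `2 N + c N / (log N) ^ 2`. -/

set_option autoImplicit false

namespace Pool.Agent.Results.MP_4f0d88_nt.PureProducts

open Polynomial

theorem result : ∃ c : ℝ, 0 < c ∧ ∃ N₀ : ℕ, ∀ N : ℕ, N₀ ≤ N → ∀ (a : Fin N → ℕ) (P : ℤ[X]),
    (∀ i, 0 < a i) → P = ∏ i, (1 - X ^ a i) →
      2 * (N : ℝ) + c * N / Real.log N ^ 2 ≤ ((∑ n ∈ P.support, |P.coeff n| : ℤ) : ℝ) := by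
  obtain ⟨N₀, h⟩ := Lib.MP_4f0d88_nt.PP.main
  exact ⟨1 / 1536, by norm_num, N₀, fun N hN a P ha e => e ▸ h N hN a ha⟩

end Pool.Agent.Results.MP_4f0d88_nt.PureProducts
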